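import Mathlib
import Pool.Agent.U469.EW.Stm

/-!
# Project EW, package GD: almost every time is good, the tails tend to zero
-/

set_option autoImplicit false

open MeasureTheory Set Filter Topology
open scoped ENNReal

namespace Pool.Agent.U293.EW.GD

open Pool.Agent.U469.EW

theorem nsq_nonneg (k : Wv) : 0 ≤ nsq k := Finset.sum_nonneg fun i _ => sq_nonneg _

theorem sqf_nonneg (a : Fld) (k : Wv) : 0 ≤ sq a k := Finset.sum_nonneg fun i _ => sq_nonneg _

theorem g_nonneg (a : Fld) (k : Wv) : 0 ≤ nsq k * sq a k :=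
  mul_nonneg (nsq_nonneg k) (sqf_nonneg a k)

theorem summable_of {g : Wv → ℝ} (hg : ∀ k, 0 ≤ g k) (h : ∑' k, ENNReal.ofReal (g k) ≠ ⊤) :
    Summable g := by
  have h1 := ENNReal.summable_toReal h
  refine h1.congr fun k => ?_
  exact ENNReal.toReal_ofReal (hg k)

theorem tail_eq {a : Fld} (h : Summable fun k => nsq k * sq a k) (A : ℕ) :
    ENNReal.ofReal (tail A a) = ∑' k, if k ∈ box A then 0 else ENNReal.ofReal (nsq k * sq a k) := by
  unfold tail
  rw [ENNReal.ofReal_tsum_of_nonneg]
  · refine tsum_congr fun k => ?_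
    split_ifs
    · exact ENNReal.ofReal_zero
    · rfl
  · intro k
    split_ifs
    · exact le_rfl
    · exact g_nonneg a k
  · refine Summable.of_nonneg_of_le (fun k => ?_) (fun k => ?_) h
    · split_ifs
      · exact le_rfl
      · exact g_nonneg a k
    · split_ifs
      · exact g_nonneg a k
      · exact le_rfl

theorem tail_le {a : Fld} (h : Summable fun k => nsq k * sq a k) (A : ℕ) :
    tail A a ≤ ∑' k, nsq k * sq a k := by
  unfold tail
  refine Summable.tsum_le_tsum (fun k => ?_) ?_ h
  · split_ifs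
    · exact g_nonneg a k
    · exact le_rfl
  · refine Summable.of_nonneg_of_le (fun k => ?_) (fun k => ?_) h
    · split_ifs
      · exact le_rfl
      · exact g_nonneg a k
    · split_ifs
      · exact g_nonneg a k
      · exact le_rfl

theorem mem_box {k : Wv} {A : ℕ} (h : ∑ i, (k i).natAbs ≤ A) : k ∈ box A := by
  unfold box
  rw [Fintype.mem_piFinset]
  intro i
  have h1 : (k i).natAbs ≤ ∑ i, (k i).natAbs :=
    Finset.single_le_sum (f := fun i => (k i).natAbs) (fun _ _ => Nat.zero_le _) (Finset.mem_univ i)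
  rw [Finset.mem_Icc]
  omega

theorem tail_tendsto {a : Fld} (h : Summable fun k => nsq k * sq a k) :
    Tendsto (fun A : ℕ => tail A a) atTop (𝓝 0) := by
  have h1 : Tendsto (fun A : ℕ => ∑' k, if k ∈ box A then 0 else nsq k * sq a k) atTop
      (𝓝 (∑' _ : Wv, (0 : ℝ))) := by
    refine tendsto_tsum_of_dominated_convergence h (fun k => ?_) (Eventually.of_forall fun A k => ?_)
    · refine tendsto_const_nhds.congr' ?_
      filter_upwards [eventually_ge_atTop (∑ i, (k i).natAbs)] with A hA
      rw [if_pos (mem_box hA)]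
    · rw [Real.norm_eq_abs]
      split_ifs
      · rw [abs_zero]
        exact g_nonneg a k
      · rw [abs_of_nonneg (g_nonneg a k)]
  rw [tsum_zero] at h1
  exact h1

theorem t_GD : S_GD := by
  intro ν T f u hT hw
  have hm : ∀ k, AEMeasurable (fun t => ENNReal.ofReal (nsq k * sq (u t) k))
      (volume.restrict (Icc 0 T)) := by
    intro k
    refine AEMeasurable.ennreal_ofReal (AEMeasurable.const_mul ?_ _)
    unfold U469.EW.sq
    refine Finset.aemeasurable_fun_sum _ fun i _ => ?_
    exact ((hw.meas k i).norm.aemeasurable).pow_const 2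
  have hfin : ∀ᵐ t ∂(volume.restrict (Icc 0 T)),
      ∑' k, ENNReal.ofReal (nsq k * sq (u t) k) < ⊤ :=
    ae_lt_top' (AEMeasurable.ennreal_tsum hm) hw.dissipation
  have hs1 : ∀ᵐ t ∂(volume.restrict (Icc 0 T)), Summable fun k => nsq k * sq (u t) k := by
    filter_upwards [hfin] with t ht
    exact summable_of (fun k => g_nonneg (u t) k) ht.ne
  have hgood : ∀ᵐ t ∂(volume.restrict (Icc 0 T)), Good (u t) := by
    filter_upwards [hs1, ae_restrict_mem measurableSet_Icc] with t ht htT
    refine ⟨hw.real t htT, hw.div t htT, ?_, ht⟩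
    obtain ⟨E, hE⟩ := hw.energy
    exact summable_of (fun k => sqf_nonneg (u t) k)
      (ne_of_lt (lt_of_le_of_lt (hE t htT) ENNReal.ofReal_lt_top))
  have heq : ∀ᵐ t ∂(volume.restrict (Icc 0 T)), ∑' k, ENNReal.ofReal (nsq k * sq (u t) k) =
      ENNReal.ofReal (∑' k, nsq k * sq (u t) k) := by
    filter_upwards [hs1] with t ht
    rw [ENNReal.ofReal_tsum_of_nonneg (fun k => g_nonneg (u t) k) ht]
  have hM : AEMeasurable (fun t => ENNReal.ofReal (∑' k, nsq k * sq (u t) k))
      (volume.restrict (Icc 0 T)) := (AEMeasurable.ennreal_tsum hm).congr heq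
  have hI : ∫⁻ t in Icc 0 T, ENNReal.ofReal (∑' k, nsq k * sq (u t) k) ≠ ⊤ := by
    rw [← lintegral_congr_ae heq]
    exact hw.dissipation
  have hT' : ∀ A : ℕ, AEMeasurable (fun t => ENNReal.ofReal (tail A (u t)))
      (volume.restrict (Icc 0 T)) := by
    intro A
    have h1 : AEMeasurable (fun t => ∑' k, if k ∈ box A then 0 else
        ENNReal.ofReal (nsq k * sq (u t) k)) (volume.restrict (Icc 0 T)) := by
      refine AEMeasurable.ennreal_tsum fun k => ?_
      by_cases hk : k ∈ box A
      · simp only [if_pos hk]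
        exact aemeasurable_const
      · simp only [if_neg hk]
        exact hm k
    refine h1.congr ?_
    filter_upwards [hs1] with t ht
    exact (tail_eq ht A).symm
  refine ⟨hgood, hT', hM, hI, ?_⟩
  have h := tendsto_lintegral_of_dominated_convergence' (μ := volume.restrict (Icc 0 T))
    (F := fun A t => ENNReal.ofReal (tail A (u t))) (f := fun _ => 0)
    (fun t => ENNReal.ofReal (∑' k, nsq k * sq (u t) k)) hT' (fun A => by
      filter_upwards [hs1] with t ht
      exact ENNReal.ofReal_le_ofReal (tail_le ht A)) hI (by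
      filter_upwards [hs1] with t ht
      have h1 := ENNReal.tendsto_ofReal (tail_tendsto ht)
      rw [ENNReal.ofReal_zero] at h1
      exact h1)
  rw [lintegral_zero] at h
  exact h

end Pool.Agent.U293.EW.GD
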